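import Pool.Agent.Helper51.PF.Goals

/-!
Project PF (MP_c27e85_nt), packet FHS: first hits.
-/

namespace Pool.Agent.Helper87.PF

open Finset Pool.Agent.Helper51.PF

section prs
variable {Ω : Type} [Fintype Ω]

lemma pr_nonneg (A : Ω → Prop) : 0 ≤ pr A := by unfold pr; positivity

lemma pr_mono {A B : Ω → Prop} (h : ∀ w, A w → B w) : pr A ≤ pr B := by
  classical
  unfold pr
  apply div_le_div_of_nonneg_right _ (Nat.cast_nonneg _)
  norm_cast
  apply card_le_card
  intro w hw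
  simp only [mem_filter, mem_univ, true_and] at hw ⊢
  exact h w hw

lemma pr_false {A : Ω → Prop} (h : ∀ w, ¬ A w) : pr A = 0 := by
  classical
  unfold pr
  have : (univ.filter A) = ∅ := by
    ext w; simp [h w]
  simp [this]

lemma pr_union {ι : Type} {A B : Ω → Prop} (I : Finset ι) (C : ι → Ω → Prop)
    (h : ∀ w, A w → B w ∨ ∃ i ∈ I, C i w) : pr A ≤ pr B + ∑ i ∈ I, pr (C i) := by
  classical
  unfold pr
  rw [← sum_div, ← add_div]
  apply div_le_div_of_nonneg_right _ (Nat.cast_nonneg _)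
  have h1 : univ.filter A ⊆ univ.filter B ∪ I.biUnion (fun i => univ.filter (C i)) := by
    intro w hw
    simp only [mem_filter, mem_univ, true_and, mem_union, mem_biUnion] at hw ⊢
    exact h w hw
  have h2 := card_le_card h1
  have h3 := card_union_le (univ.filter B) (I.biUnion (fun i => univ.filter (C i)))
  have h4 := card_biUnion_le (s := I) (t := fun i => univ.filter (C i))
  have h5 : (univ.filter A).card ≤ (univ.filter B).card + ∑ i ∈ I, (univ.filter (C i)).card := by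
    omega
  exact_mod_cast h5

end prs

/-- separation -/
def Sep (d : ℕ) (R : Finset ℕ) : Prop := ∀ r ∈ R, ∀ r' ∈ R, r < r' → r + d ≤ r'

open Classical in
lemma close_card (Z : Finset ℕ) (n L q : ℕ) (hZ : #Z ≤ n) :
    #((Z.powersetCard q).filter (fun R => ¬ Sep (2 * L) R)) * n ≤ 2 * L * n ^ q := by
  by_cases hq : 2 ≤ q
  · obtain ⟨m, rfl⟩ := Nat.exists_eq_add_of_le hq
    have hsub : (Z.powersetCard (2 + m)).filter (fun R => ¬ Sep (2 * L) R) ⊆
        (Z ×ˢ range (2 * L)).biUnion (fun x => (Z.powersetCard m).image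
          (fun R => insert x.1 (insert (x.1 + x.2) R))) := by
      intro R hR
      obtain ⟨hR1, hR2⟩ := mem_filter.1 hR
      obtain ⟨hRZ, hRc⟩ := mem_powersetCard.1 hR1
      unfold Sep at hR2
      push Not at hR2
      obtain ⟨r, hr, r', hr', hlt, hlt2⟩ := hR2
      rw [mem_biUnion]
      refine ⟨(r, r' - r), ?_, ?_⟩
      · rw [mem_product]; exact ⟨hRZ hr, mem_range.2 (by simp only; omega)⟩
      · rw [mem_image]
        have e1 : r + (r' - r) = r' := by omega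
        have hr'' : r' ∈ R.erase r := mem_erase.2 ⟨by omega, hr'⟩
        refine ⟨(R.erase r).erase r', ?_, ?_⟩
        · rw [mem_powersetCard]
          refine ⟨fun x hx => hRZ (mem_of_mem_erase (mem_of_mem_erase hx)), ?_⟩
          rw [card_erase_of_mem hr'', card_erase_of_mem hr, hRc]; omega
        · simp only [e1]
          rw [insert_erase hr'', insert_erase hr]
    have h1 := card_le_card hsub
    have h2 : #((Z ×ˢ range (2 * L)).biUnion (fun x => (Z.powersetCard m).image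
          (fun R => insert x.1 (insert (x.1 + x.2) R)))) ≤ #(Z ×ˢ range (2 * L)) * n ^ m := by
      apply card_biUnion_le_card_mul
      intro x _
      refine le_trans card_image_le ?_
      rw [card_powersetCard]
      exact le_trans (Nat.choose_le_pow _ _) (Nat.pow_le_pow_left hZ m)
    rw [card_product, card_range] at h2
    have h3 : #((Z.powersetCard (2 + m)).filter (fun R => ¬ Sep (2 * L) R)) ≤ #Z * (2 * L) * n ^ m :=
      le_trans h1 h2
    calc #((Z.powersetCard (2 + m)).filter (fun R => ¬ Sep (2 * L) R)) * n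
        ≤ (#Z * (2 * L) * n ^ m) * n := Nat.mul_le_mul_right _ h3
      _ ≤ (n * (2 * L) * n ^ m) * n := by gcongr
      _ = 2 * L * n ^ (2 + m) := by ring
  · have : (Z.powersetCard q).filter (fun R => ¬ Sep (2 * L) R) = ∅ := by
      rw [filter_eq_empty_iff]
      intro R hR
      rw [not_not]
      intro r hr r' hr' hlt
      exfalso
      have h1 := (mem_powersetCard.1 hR).2
      have h2 : 1 < #R := one_lt_card.2 ⟨r, hr, r', hr', by omega⟩
      omega
    rw [this]; simp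

section main
variable {G : Type} [CommGroup G] [Fintype G] {n L β : ℕ} {v : Fin n → G} {B : ℕ → Finset G}

lemma e_le (hB : ∀ r, (B r).card ≤ β) (R : Finset ℕ) :
    ∏ r ∈ R, ((B r).card : ℝ) / Fintype.card G ≤ ((β : ℝ) / Fintype.card G) ^ #R := by
  rw [← prod_const]
  apply prod_le_prod
  · intro r _; positivity
  · intro r _
    apply div_le_div_of_nonneg_right _ (Nat.cast_nonneg _)
    exact_mod_cast hB r

omit [Fintype G] in
lemma first_sub (R : Finset ℕ) : ∀ τ : Equiv.Perm (Fin n), (∀ r ∈ R, FirstHit v B L τ r) →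
    ∀ r ∈ R, Tpr v τ r ∈ B r := fun _ h r hr => (h r hr).1

/-- close sets -/
lemma close_bd (hFARB : G_FARB) (hv : SmallChar v) (hn : 1000 ≤ n) (hL : 1 ≤ L) (hLn : 100 * L ≤ n)
    (hB : ∀ r, (B r).card ≤ β) (R : Finset ℕ) (hR : ∀ r ∈ R, L < r ∧ r + L < n)
    (h45 : (4 / 5 : ℝ) ^ L ≤ 1 / (Fintype.card G : ℝ) ^ #R) :
    |pr (fun τ : Equiv.Perm (Fin n) => ∀ r ∈ R, FirstHit v B L τ r) -
      ∏ r ∈ R, ((B r).card : ℝ) / Fintype.card G| ≤ 2 * ((β : ℝ) / Fintype.card G) ^ #R := by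
  have hp := pr_nonneg (fun τ : Equiv.Perm (Fin n) => ∀ r ∈ R, FirstHit v B L τ r)
  have he : 0 ≤ ∏ r ∈ R, ((B r).card : ℝ) / Fintype.card G := prod_nonneg (fun r _ => by positivity)
  have he2 := e_le hB R
  by_cases hS : Sep L R
  · have h1 := hFARB G n L β v R B hv hn hLn hR hS hB
    have h2 : pr (fun τ : Equiv.Perm (Fin n) => ∀ r ∈ R, FirstHit v B L τ r) ≤
      pr (fun τ : Equiv.Perm (Fin n) => ∀ r ∈ R, Tpr v τ r ∈ B r) := pr_mono (first_sub R)
    have h3 : (β : ℝ) ^ #R * (4 / 5 : ℝ) ^ L ≤ ((β : ℝ) / Fintype.card G) ^ #R := by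
      calc (β : ℝ) ^ #R * (4 / 5 : ℝ) ^ L ≤ (β : ℝ) ^ #R * (1 / (Fintype.card G : ℝ) ^ #R) :=
            mul_le_mul_of_nonneg_left h45 (by positivity)
        _ = ((β : ℝ) / Fintype.card G) ^ #R := by rw [div_pow]; ring
    rw [abs_le] at h1 ⊢
    constructor
    · linarith
    · linarith [h1.2]
  · have h1 : pr (fun τ : Equiv.Perm (Fin n) => ∀ r ∈ R, FirstHit v B L τ r) = 0 := by
      apply pr_false
      intro τ hτ
      unfold Sep at hS
      push Not at hS
      obtain ⟨r, hr, r', hr', h2, h3⟩ := hS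
      have h4 := (hτ r' hr').2 r (by rw [mem_Ioo]; have := hR r hr; omega) h2 h3
      exact h4 (hτ r hr).1
    rw [h1, zero_sub, abs_neg, abs_of_nonneg he]
    have : (0 : ℝ) ≤ ((β : ℝ) / Fintype.card G) ^ #R := by positivity
    linarith

/-- separated sets -/
lemma far_bd (hFARB : G_FARB) (hNEARB : G_NEARB) (hi : Function.Injective v) (hv : SmallChar v)
    (hn : 1000 ≤ n) (hL : 1 ≤ L) (hLn : 100 * L ≤ n)
    (hB : ∀ r, (B r).card ≤ β) (R : Finset ℕ) (hR : ∀ r ∈ R, L < r ∧ r + L < n)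
    (h45 : (4 / 5 : ℝ) ^ L ≤ 1 / (Fintype.card G : ℝ) ^ #R) (hS : Sep (2 * L) R) :
    |pr (fun τ : Equiv.Perm (Fin n) => ∀ r ∈ R, FirstHit v B L τ r) -
      ∏ r ∈ R, ((B r).card : ℝ) / Fintype.card G| ≤ (β : ℝ) ^ #R * (4 / 5 : ℝ) ^ L +
        4 * #R * L * ((β : ℝ) / Fintype.card G) ^ #R * (β / n) := by
  have hS' : Sep L R := fun r hr r' hr' h => by have := hS r hr r' hr' h; omega
  have h1 := hFARB G n L β v R B hv hn hLn hR hS' hB
  have h2 : pr (fun τ : Equiv.Perm (Fin n) => ∀ r ∈ R, FirstHit v B L τ r) ≤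
      pr (fun τ : Equiv.Perm (Fin n) => ∀ r ∈ R, Tpr v τ r ∈ B r) := pr_mono (first_sub R)
  have hn0 : (0 : ℝ) < n := by have : 0 < n := by omega
                               exact_mod_cast this
  have hLn' : (100 : ℝ) * L ≤ n := by exact_mod_cast hLn
  have hN0 : (0 : ℝ) < Fintype.card G := by exact_mod_cast Fintype.card_pos
  set bd : ℝ := (β : ℝ) ^ #R * (1 / (Fintype.card G : ℝ) ^ #R + (4 / 5 : ℝ) ^ L) *
      ((β : ℝ) / ((n : ℝ) - L)) with hbd
  have hnL : (0 : ℝ) < n - L := by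
    have : (0 : ℝ) ≤ L := Nat.cast_nonneg _
    linarith
  have hbd0 : 0 ≤ bd := by rw [hbd]; positivity
  have hbd1 : bd ≤ 4 * ((β : ℝ) / Fintype.card G) ^ #R * (β / n) := by
    rw [hbd]
    have e1 : (1 / (Fintype.card G : ℝ) ^ #R + (4 / 5 : ℝ) ^ L) ≤ 2 * (1 / (Fintype.card G : ℝ) ^ #R) := by
      linarith
    have e2 : (β : ℝ) / ((n : ℝ) - L) ≤ 2 * (β / n) := by
      rw [div_le_iff₀ hnL]
      have e3 : 2 * ((β : ℝ) / n) * (n - L) = β * (2 * (1 - L / n)) := by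
        field_simp
      rw [e3]
      have e4 : (L : ℝ) / n ≤ 1 / 2 := by
        rw [div_le_iff₀ hn0]
        have : (0 : ℝ) ≤ L := Nat.cast_nonneg _
        linarith
      have e5 : (0 : ℝ) ≤ β := Nat.cast_nonneg _
      nlinarith
    calc (β : ℝ) ^ #R * (1 / (Fintype.card G : ℝ) ^ #R + (4 / 5 : ℝ) ^ L) * ((β : ℝ) / ((n : ℝ) - L))
        ≤ (β : ℝ) ^ #R * (2 * (1 / (Fintype.card G : ℝ) ^ #R)) * (2 * (β / n)) := by
          apply mul_le_mul _ e2 (by positivity) (by positivity)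
          exact mul_le_mul_of_nonneg_left e1 (by positivity)
      _ = 4 * ((β : ℝ) / Fintype.card G) ^ #R * (β / n) := by
          rw [div_pow]; ring
  have h3 : pr (fun τ : Equiv.Perm (Fin n) => ∀ r ∈ R, Tpr v τ r ∈ B r) ≤
      pr (fun τ : Equiv.Perm (Fin n) => ∀ r ∈ R, FirstHit v B L τ r) +
      ∑ x ∈ R ×ˢ range L, pr (fun τ : Equiv.Perm (Fin n) => (1 ≤ x.2 ∧ L < x.1 - x.2) ∧
        ((∀ r' ∈ R, Tpr v τ r' ∈ B r') ∧ Tpr v τ (x.1 - x.2) ∈ B (x.1 - x.2))) := by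
    apply pr_union
    intro τ hτ
    by_cases hf : ∀ r ∈ R, FirstHit v B L τ r
    · exact Or.inl hf
    · right
      push Not at hf
      obtain ⟨r, hr, hr1⟩ := hf
      unfold FirstHit at hr1
      push Not at hr1
      obtain ⟨r2, h5, h6, h7, h8⟩ := hr1 (hτ r hr)
      rw [mem_Ioo] at h5
      have e1 : r - (r - r2) = r2 := by omega
      refine ⟨(r, r - r2), ?_, ?_⟩
      · rw [mem_product]; exact ⟨hr, mem_range.2 (by simp only; omega)⟩
      · simp only [e1]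
        exact ⟨⟨by omega, h5.1⟩, hτ, h8⟩
  have h4 : ∑ x ∈ R ×ˢ range L, pr (fun τ : Equiv.Perm (Fin n) => (1 ≤ x.2 ∧ L < x.1 - x.2) ∧
        ((∀ r' ∈ R, Tpr v τ r' ∈ B r') ∧ Tpr v τ (x.1 - x.2) ∈ B (x.1 - x.2))) ≤ #R * L * bd := by
    have h5 : ∀ x ∈ R ×ˢ range L, pr (fun τ : Equiv.Perm (Fin n) => (1 ≤ x.2 ∧ L < x.1 - x.2) ∧
        ((∀ r' ∈ R, Tpr v τ r' ∈ B r') ∧ Tpr v τ (x.1 - x.2) ∈ B (x.1 - x.2))) ≤ bd := by
      rintro ⟨r, k⟩ hx
      obtain ⟨hr, hk⟩ := mem_product.1 hx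
      rw [mem_range] at hk
      simp only at hr hk ⊢
      by_cases hc : 1 ≤ k ∧ L < r - k
      · refine le_trans (pr_mono (fun τ hτ => hτ.2)) ?_
        exact hNEARB G n L β v R B r (r - k) hi hv hn hLn hR hS hB hr (by omega) (by omega) hc.2
      · rw [pr_false (fun τ hτ => hc hτ.1)]; exact hbd0
    have h6 := sum_le_card_nsmul _ _ _ h5
    rw [card_product, card_range, nsmul_eq_mul] at h6
    push_cast at h6
    exact h6
  have h7 : (#R : ℝ) * L * bd ≤ 4 * #R * L * ((β : ℝ) / Fintype.card G) ^ #R * (β / n) := by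
    have := mul_le_mul_of_nonneg_left hbd1 (by positivity : (0 : ℝ) ≤ (#R : ℝ) * L)
    calc (#R : ℝ) * L * bd ≤ (#R : ℝ) * L * (4 * ((β : ℝ) / Fintype.card G) ^ #R * (β / n)) := this
      _ = _ := by ring
  rw [abs_le] at h1 ⊢
  have h8 : (0 : ℝ) ≤ 4 * #R * L * ((β : ℝ) / Fintype.card G) ^ #R * (β / n) := by positivity
  constructor
  · linarith [h1.1]
  · linarith [h1.2]

end main

/-- The packet. -/
theorem g_fhs (hFARB : G_FARB) (hNEARB : G_NEARB) : Pool.Agent.Helper51.PF.G_FHS := by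
  classical
  intro G _ _ n L β q v B hi hv hn hL hLn hβ hnβ hB h45
  have hn0 : (0 : ℝ) < n := by
    have : 0 < n := by omega
    exact_mod_cast this
  have hN0 : (0 : ℝ) < Fintype.card G := by exact_mod_cast Fintype.card_pos
  have hβ1 : (1 : ℝ) ≤ β := by exact_mod_cast hβ
  have hL0 : (0 : ℝ) ≤ L := Nat.cast_nonneg _
  set N : ℝ := (Fintype.card G : ℝ) with hN
  set Z := Finset.Ioo L (n - L) with hZ
  have hZn : #Z ≤ n := by rw [hZ, Nat.card_Ioo]; omega
  have hnb : (n : ℝ) * β ≤ 4 * N := by rw [hN]; exact_mod_cast hnβ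
  have hx : ((n : ℝ) * β / N) ^ q ≤ 4 ^ q := by
    apply pow_le_pow_left₀ (by positivity)
    rw [div_le_iff₀ hN0]; exact hnb
  have hmem : ∀ R ∈ Z.powersetCard q, (∀ r ∈ R, L < r ∧ r + L < n) ∧ #R = q := by
    intro R hR
    obtain ⟨h1, h2⟩ := mem_powersetCard.1 hR
    refine ⟨fun r hr => ?_, h2⟩
    have := h1 hr
    rw [hZ, mem_Ioo] at this
    omega
  unfold SS esum
  rw [← hZ, ← sum_sub_distrib]
  set f : Finset ℕ → ℝ := fun R => pr (fun τ : Equiv.Perm (Fin n) => ∀ r ∈ R, FirstHit v B L τ r) -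
      ∏ r ∈ R, ((B r).card : ℝ) / N with hf
  have hsplit : ∑ R ∈ Z.powersetCard q, |f R| =
      ∑ R ∈ (Z.powersetCard q).filter (fun R => ¬ Sep (2 * L) R), |f R| +
      ∑ R ∈ (Z.powersetCard q).filter (fun R => Sep (2 * L) R), |f R| := by
    rw [add_comm]; exact (sum_filter_add_sum_filter_not _ _ _).symm
  set b2 : ℝ := 2 * ((β : ℝ) / N) ^ q with hb2
  set b1 : ℝ := (β : ℝ) ^ q * (4 / 5 : ℝ) ^ L + 4 * q * L * ((β : ℝ) / N) ^ q * (β / n) with hb1
  have hc1 : ∑ R ∈ (Z.powersetCard q).filter (fun R => ¬ Sep (2 * L) R), |f R| ≤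
      #((Z.powersetCard q).filter (fun R => ¬ Sep (2 * L) R)) * b2 := by
    rw [← nsmul_eq_mul]
    apply sum_le_card_nsmul
    intro R hR
    obtain ⟨h1, h2⟩ := hmem R (mem_filter.1 hR).1
    have := close_bd hFARB hv hn hL hLn hB R h1 (by rw [h2]; exact h45)
    rw [h2] at this
    exact this
  have hc2 : ∑ R ∈ (Z.powersetCard q).filter (fun R => Sep (2 * L) R), |f R| ≤
      #((Z.powersetCard q).filter (fun R => Sep (2 * L) R)) * b1 := by
    rw [← nsmul_eq_mul]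
    apply sum_le_card_nsmul
    intro R hR
    obtain ⟨h1, h2⟩ := hmem R (mem_filter.1 hR).1
    have := far_bd hFARB hNEARB hi hv hn hL hLn hB R h1 (by rw [h2]; exact h45) (mem_filter.1 hR).2
    rw [h2] at this
    exact this
  have hd1 : (#((Z.powersetCard q).filter (fun R => ¬ Sep (2 * L) R)) : ℝ) ≤ 2 * L * n ^ q / n := by
    rw [le_div_iff₀ hn0]
    exact_mod_cast close_card Z n L q hZn
  have hd2 : (#((Z.powersetCard q).filter (fun R => Sep (2 * L) R)) : ℝ) ≤ n ^ q := by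
    have h1 : #((Z.powersetCard q).filter (fun R => Sep (2 * L) R)) ≤ n ^ q := by
      refine le_trans (card_filter_le _ _) ?_
      rw [card_powersetCard]
      exact le_trans (Nat.choose_le_pow _ _) (Nat.pow_le_pow_left hZn q)
    exact_mod_cast h1
  have hb20 : 0 ≤ b2 := by rw [hb2]; positivity
  have hb10 : 0 ≤ b1 := by rw [hb1]; positivity
  have hLn0 : (0 : ℝ) ≤ (L : ℝ) * β / n := by positivity
  have t1 : 2 * (L : ℝ) * n ^ q / n * b2 ≤ 4 * 4 ^ q * ((L : ℝ) * β / n) := by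
    have e1 : 2 * (L : ℝ) * n ^ q / n * b2 = 4 * ((n : ℝ) * β / N) ^ q * (L / n) := by
      rw [hb2, mul_div_assoc (n : ℝ) (β : ℝ) N, mul_pow]; ring
    rw [e1]
    have e2 : (L : ℝ) / n ≤ (L : ℝ) * β / n := by
      apply div_le_div_of_nonneg_right _ hn0.le
      nlinarith
    exact mul_le_mul (by linarith) e2 (by positivity) (by positivity)
  have t2 : (n : ℝ) ^ q * b1 ≤ (4 * N) ^ q * (4 / 5 : ℝ) ^ L + 4 * q * 4 ^ q * ((L : ℝ) * β / n) := by
    have e1 : (n : ℝ) ^ q * b1 = ((n : ℝ) * β) ^ q * (4 / 5 : ℝ) ^ L +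
        4 * q * ((n : ℝ) * β / N) ^ q * ((L : ℝ) * β / n) := by
      rw [hb1, mul_div_assoc (n : ℝ) (β : ℝ) N, mul_pow, mul_pow]; ring
    rw [e1]
    apply add_le_add
    · apply mul_le_mul_of_nonneg_right _ (by positivity)
      exact pow_le_pow_left₀ (by positivity) hnb q
    · apply mul_le_mul_of_nonneg_right _ hLn0
      exact mul_le_mul_of_nonneg_left hx (by positivity)
  calc |∑ R ∈ Z.powersetCard q, (pr (fun τ : Equiv.Perm (Fin n) => ∀ r ∈ R, FirstHit v B L τ r) -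
        ∏ r ∈ R, ((B r).card : ℝ) / N)| ≤ ∑ R ∈ Z.powersetCard q, |f R| := abs_sum_le_sum_abs _ _
    _ ≤ 2 * L * n ^ q / n * b2 + n ^ q * b1 := by
        rw [hsplit]
        exact add_le_add (le_trans hc1 (mul_le_mul_of_nonneg_right hd1 hb20))
          (le_trans hc2 (mul_le_mul_of_nonneg_right hd2 hb10))
    _ ≤ 4 * 4 ^ q * ((L : ℝ) * β / n) + ((4 * N) ^ q * (4 / 5 : ℝ) ^ L + 4 * q * 4 ^ q * ((L : ℝ) * β / n)) :=
        add_le_add t1 t2
    _ ≤ (10 * q + 10) * 4 ^ q * ((L : ℝ) * β / n) + (4 * N) ^ q * (4 / 5 : ℝ) ^ L := by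
        have e1 : (0 : ℝ) ≤ 4 ^ q * ((L : ℝ) * β / n) := by positivity
        have e2 : (0 : ℝ) ≤ q := Nat.cast_nonneg _
        nlinarith [mul_nonneg e2 e1]

end Pool.Agent.Helper87.PF
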